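import Mathlib
import Pool.Agent.K6.H54.Pal.Fam

/-!
# The generalized Hodge conjecture for explicit abelian varieties of CM type in all levels up to half
# of the logarithm of the dimension

Let `E` be a CM field which is a Galois extension of `ℚ` of degree `2 g` such that the Galois group is
`{1, -1} × A`, with complex conjugation `(-1, 1)`. So `E = K F` with an imaginary quadratic field `K`
and a totally real Galois extension `F` of `ℚ` of degree `g` with Galois group `A`. A sign function
`η : A → {1, -1}` defines a CM type `Φ` of `E`: the embeddings `φ₀ ∘ (s, a)` with `s = η (a)`, where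
`φ₀` is a fixed embedding.

The starting result `LogarithmicThreshold` shows that almost all CM types of a CM field of degree
`2 g` satisfy the generalized Hodge conjecture by divisors, for all powers, in all levels up to
`(1 - ε) log₂ g`, and that no simple CM type of a Galois CM field does in all levels up to `log₂ g`.
It gives no CM type for which this is true. Here we exhibit such types, with half of the bound.

* (1) If the correlations `∑ t, ∏ a ∈ U, η (t a)` of `η` along all nonempty sets `U` of at most `L + 2`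
  elements are at most `Δ`, and `2 ^ (L + 1) k Δ < g`, then for all products of powers of the abelian
  varieties of CM type `(E, Φ)`, all degrees `i ≤ k` and all `j` with `i - 2 j ≤ L` the generalized Hodge
  conjecture holds by divisors (`DivisorialBelow Φ k L`): every Hodge substructure of `H^i(A, ℚ)` of
  level at most `i - 2 j` is contained in the span of the products of `j` Hodge classes of degree two
  with rational classes of degree `i - 2 j`. More generally this is true for families of such fields
  which are linearly disjoint (`Independent`), with different groups and sign functions.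
* (2) The Paley sign functions (`PaleySign`) on the groups `(𝔽, +)`, `𝔽 ˣ` and `(𝔽 ˣ) ²`, `𝔽` a finite
  field of odd characteristic, the quadratic characters of `x`, `x + 1` and `x + c` (`-c` not a square),
  have correlations of order at most `r` bounded by `2 r √(2 g + 1)`, by Weil's bound.
* (3) So the CM types given by them (`IsPaleyType`) satisfy the generalized Hodge conjecture by
  divisors in all degrees up to `k` and levels up to `L` if `2 ((L + 2) 2 ^ (L + 2) k) ² < g`, and
  in all degrees and levels up to `s` if `2 (s 2 ^ (s + 1)) ² < g`. In the second case the conjecture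
  also passes in degrees at most `s` from every smooth projective variety `Y` with periods in a field
  `K` to the products of `Y` with these abelian varieties, if the fields are linearly disjoint from `K`
  (`TransfersUpTo`, `ConiveauOneForCM`), and the abelian varieties are simple and pairwise not
  isogenous (`Separated`) if `s ≥ 2`.
* (4) For every `ε > 0` and all large `g`, all Paley types of dimension `g` satisfy it in all degrees up
  to `(1 / 2 - ε) log₂ g`, and for all `δ` between `ε` and `1 / 2` in all degrees up to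
  `g ^ (1 / 2 - δ)` and levels up to `(δ - ε) log₂ g`; and fail it in some degree `i ≤ log₂ g + 2`.
* (5) For a prime `p` with remainder `3` modulo `4` the embeddings of the field of the roots of unity of
  order `p` which map `ζ` to `exp (2 π i t / p)` with `t ^ 3 + t` a nonzero square modulo `p` are a Paley
  type. Paley types also exist on the composite fields of all imaginary quadratic fields with, for
  example, all cyclic totally real fields of degree `g` if `g` or `g + 1` is an odd prime.

The proof. The criterion (`LevelFree`) used for `LogarithmicThreshold` asks for an automorphism of `ℂ`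
which moves a given word of at most `k` embeddings such that more than `B ≤ L` more letters fall inside
of the type than outside of it. We choose `B + 1` different letters; the automorphisms that map all
of them into the type are counted by the expansion of `∏ (1 + η)`, and the mean value over them of
the sum over the remaining letters is close to zero, by the bounds for the correlations.
-/

set_option autoImplicit false

namespace Pool.Agent.K6.H54.Aside.PaleyTypes

open NumberField Pool.Agent.H204R3.CM Pool.Agent.W546.GHC Pool.Agent.X311.CmY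
  Pool.Agent.X311.Cn1 Pool.Agent.TH170.LV Pool.Agent.TH170.GH Pool.Agent.K6.H54.Pal

/-- For all products of powers of the abelian varieties of CM type `(E i, Φ i)`, all degrees `i ≤ k`
and all `j` with `i - 2 j ≤ L`, the Hodge substructures of level at most `i - 2 j` of the cohomology of
degree `i` come from products of `j` Hodge classes of degree two. -/
def DivisorialBelow {ι : Type} {E : ι → Type} [∀ i, Field (E i)] [∀ i, NumberField (E i)]
    (Φ : ∀ i, Set (E i →+* ℂ)) (k L : ℕ) : Prop :=
  ∀ (J : Type) [Fintype J] (t : J → ι), ∀ i ≤ k, ∀ j, i ≤ 2 * j + L →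
    DivisorialConiveau (per Φ t) i j

/-- The CM type of the sign function `η`. -/
def signType {E : Type} [Field E] {A : Type} [Group A] [NumberField E] (φ₀ : E →+* ℂ)
    (e : (E ≃ₐ[ℚ] E) ≃* ℤˣ × A) (η : A → ℤˣ) : Set (E →+* ℂ) :=
  {φ | ∃ σ : E ≃ₐ[ℚ] E, φ = φ₀.comp (σ : E →+* E) ∧ (e σ).1 * η (e σ).2 = 1}

/-- everything about families -/
theorem family {ι : Type} [Fintype ι] {E : ι → Type} [∀ i, Field (E i)] [∀ i, NumberField (E i)]
    [∀ i, IsCMField (E i)] [∀ i, IsGalois ℚ (E i)] (Φ : ∀ i, Set (E i →+* ℂ))
    (hΦ : ∀ i, IsPaleyType (Φ i)) (g : ι → ℕ) (hg : ∀ i, Module.finrank ℚ (E i) = 2 * g i)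
    (K : Subfield ℂ) (hK : Independent K E) :
    (∀ i, IsCMType (Φ i)) ∧
    (∀ k L : ℕ, (∀ i, 2 * ((L + 2) * 2 ^ (L + 2) * k) ^ 2 < g i) → DivisorialBelow Φ k L) ∧
    (∀ s : ℕ, (∀ i, 2 * (s * 2 ^ (s + 1)) ^ 2 < g i) → DivisorialBelow Φ s s ∧
      TransfersUpTo K Φ s ∧ ConiveauOneForCM K Φ s ∧ (2 ≤ s → Separated Φ)) := by
  classical
  choose A inst η e φ₀ hη he hE using hΦ
  have hfin : ∀ i, Finite (A i) := by
    intro i
    have h1 : Finite (ℤˣ × A i) := Finite.of_equiv _ (e i).toEquiv
    exact Finite.of_surjective (Prod.snd : ℤˣ × A i → A i) Prod.snd_surjective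
  have hft : ∀ i, Fintype (A i) := fun i => Fintype.ofFinite (A i)
  have hΦ : Φ = fun i => typeOf (φ₀ i) (fun σ => (e i σ).1 * η i (e i σ).2) := funext hE
  have hcard : ∀ i, Fintype.card (A i) = g i := by
    intro i
    have h1 := finrank_eq (e i)
    rw [hg i] at h1
    omega
  have hCM : ∀ i, IsCMType (Φ i) := by
    intro i
    rw [hΦ]
    exact isCMType_typeOf (φ₀ i) (sign_conj e he i)
  refine ⟨hCM, ?_, ?_⟩
  · intro k L h J _ t i hi j hj
    refine direct' t hCM (k := k) (M := L) ?_ j hi hj
    rw [hΦ]
    refine family_level e he φ₀ hK (fun i => corrA_of_paley (hη i) (L + 2)) fun i => ?_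
    rw [hcard i]
    have h1 := num_one (h i)
    push_cast at h1 ⊢
    calc (2 : ℝ) ^ (L + 1) * k * (2 * ((L : ℝ) + 2) * Real.sqrt (2 * g i + 1)) =
        ((L : ℝ) + 2) * 2 ^ (L + 2) * k * Real.sqrt (2 * g i + 1) := by ring
      _ < g i := h1
  · intro s h
    have hocc : SmallSetsOccurOver K Φ s := by
      rw [hΦ]
      refine family_occurs e he φ₀ hK (fun i => by positivity)
        (fun i => corrA_of_paley (hη i) s) fun i => ?_
      rw [hcard i]
      have h1 := num_one (h i)
      push_cast at h1
      calc (2 : ℝ) ^ s * (2 * s * Real.sqrt (2 * g i + 1)) =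
          (s : ℝ) * 2 ^ (s + 1) * Real.sqrt (2 * g i + 1) := by ring
        _ < g i := h1
    have hocc' : SmallSetsOccur Φ s := by
      intro X h1 h3
      obtain ⟨σ, -, hσ⟩ := hocc X h1 h3
      exact ⟨σ, hσ⟩
    have htr : TransfersUpTo K Φ s := transfers_of_small hCM hocc
    refine ⟨fun J _ t i hi j _ => direct t hCM hocc' j hi, htr, coniveauOneForCM_of hCM htr, ?_⟩
    intro h2
    have hocc2 : SmallSetsOccur Φ 2 := fun X h1 h3 => hocc' X (h1.trans (by exact_mod_cast h2)) h3
    rw [hΦ] at hocc2 ⊢
    exact separated_of_small φ₀ (sign_conj e he) hocc2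

theorem log_add_two_le {g : ℕ} (hg : 3 ≤ g) : Nat.log 2 g + 2 ≤ g := by
  have h1 : 2 ^ Nat.log 2 g ≤ g := Nat.pow_log_le_self 2 (by omega)
  have h2 : ∀ k : ℕ, 2 ≤ k → k + 2 ≤ 2 ^ k := by
    intro k hk
    induction k, hk using Nat.le_induction with
    | base => norm_num
    | succ k hk ih =>
      rw [pow_succ]
      omega
  by_cases h3 : 2 ≤ Nat.log 2 g
  · exact (h2 _ h3).trans h1
  · omega

/-- The generalized Hodge conjecture holds by divisors for the powers of the abelian varieties of the
Paley CM types, in all levels up to half of the logarithm of the dimension to the base two. -/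
theorem result :
    (∀ {ι : Type} [Fintype ι] (E : ι → Type) [∀ i, Field (E i)] [∀ i, NumberField (E i)]
      [∀ i, IsCMField (E i)] [∀ i, IsGalois ℚ (E i)] (A : ι → Type) [∀ i, Group (A i)]
      [∀ i, Fintype (A i)] (η : ∀ i, A i → ℤˣ) (e : ∀ i, (E i ≃ₐ[ℚ] E i) ≃* ℤˣ × A i)
      (φ₀ : ∀ i, E i →+* ℂ), (∀ i, e i (conjGal (E i)) = (-1, 1)) → Independent ⊥ E →
      (∀ i, IsCMType (signType (φ₀ i) (e i) (η i))) ∧
      ∀ (k L : ℕ) (Δ : ι → ℝ), (∀ i, CorrA (η i) (L + 2) (Δ i)) →
        (∀ i, (2 : ℝ) ^ (L + 1) * k * Δ i < Fintype.card (A i)) →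
        DivisorialBelow (fun i => signType (φ₀ i) (e i) (η i)) k L) ∧
    (∀ (A : Type) [inst : Group A] [Fintype A] (η : A → ℤˣ), PaleySign A inst η → ∀ r : ℕ,
      CorrA η r (2 * r * Real.sqrt (2 * Fintype.card A + 1))) ∧
    (∀ {ι : Type} [Fintype ι] (E : ι → Type) [∀ i, Field (E i)] [∀ i, NumberField (E i)]
      [∀ i, IsCMField (E i)] [∀ i, IsGalois ℚ (E i)] (Φ : ∀ i, Set (E i →+* ℂ)),
      (∀ i, IsPaleyType (Φ i)) → ∀ g : ι → ℕ, (∀ i, Module.finrank ℚ (E i) = 2 * g i) →
      ∀ K : Subfield ℂ, Independent K E →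
      (∀ i, IsCMType (Φ i)) ∧
      (∀ k L : ℕ, (∀ i, 2 * ((L + 2) * 2 ^ (L + 2) * k) ^ 2 < g i) → DivisorialBelow Φ k L) ∧
      (∀ s : ℕ, (∀ i, 2 * (s * 2 ^ (s + 1)) ^ 2 < g i) → DivisorialBelow Φ s s ∧
        TransfersUpTo K Φ s ∧ ConiveauOneForCM K Φ s ∧ (2 ≤ s → Separated Φ))) ∧
    (∀ ε : ℝ, 0 < ε → ε ≤ 1 / 2 → ∃ g₀ : ℕ, ∀ g ≥ g₀, ∀ (E : Type) [Field E] [NumberField E]
      [IsCMField E] [IsGalois ℚ E], Module.finrank ℚ E = 2 * g → ∀ Φ : Set (E →+* ℂ),
      IsPaleyType Φ →
      DivisorialBelow (fun _ : Unit => Φ) ⌊(1 / 2 - ε) * Real.logb 2 g⌋₊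
        ⌊(1 / 2 - ε) * Real.logb 2 g⌋₊ ∧
      (∀ δ : ℝ, ε ≤ δ → δ ≤ 1 / 2 → DivisorialBelow (fun _ : Unit => Φ)
        ⌊(g : ℝ) ^ (1 / 2 - δ)⌋₊ ⌊(δ - ε) * Real.logb 2 g⌋₊) ∧
      ∀ (J : Type) [Fintype J] [Nonempty J], ∃ i ≤ Nat.log 2 g + 2,
        ¬ DivisorialConiveau (per (fun _ : Unit => Φ) (fun _ : J => ())) i 1) ∧
    (∀ (p : ℕ) [Fact p.Prime], p % 4 = 3 → ∀ (E : Type) [Field E] [NumberField E] [IsCMField E]
      [IsCyclotomicExtension {p} ℚ E] (ζ : E), IsPrimitiveRoot ζ p →
      IsPaleyType {φ : E →+* ℂ | ∃ t : ZMod p,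
        φ ζ = Complex.exp (2 * Real.pi * Complex.I / p) ^ t.val ∧
          quadraticChar (ZMod p) (t ^ 3 + t) = 1}) ∧
    (∀ (E : Type) [Field E] [NumberField E], Independent ⊥ (fun _ : Unit => E)) := by
  refine ⟨?_, ?_, ?_, ?_, ?_, ?_⟩
  · intro ι _ E _ _ _ _ A _ _ η e φ₀ he hK
    have hCM : ∀ i, IsCMType (signType (φ₀ i) (e i) (η i)) := fun i =>
      isCMType_typeOf (φ₀ i) (sign_conj e he i)
    refine ⟨hCM, fun k L Δ hC hlt J _ t i hi j hj => ?_⟩
    exact direct' t hCM (k := k) (M := L) (family_level e he φ₀ hK hC hlt) j hi hj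
  · intro A inst _ η h r
    exact corrA_of_paley h r
  · intro ι _ E _ _ _ _ Φ hΦ g hg K hK
    exact family Φ hΦ g hg K hK
  · intro ε hε hε'
    obtain ⟨g₀, hg₀⟩ := num_two ε hε
    refine ⟨max g₀ 513, fun g hg E _ _ _ _ hE Φ hΦ => ?_⟩
    have h1 := hg₀ g ((le_max_left _ _).trans hg)
    have h513 : 513 ≤ g := (le_max_right _ _).trans hg
    obtain ⟨h2, h3, h4⟩ := family (fun _ : Unit => Φ) (fun _ => hΦ) (fun _ => g) (fun _ => hE) ⊥
      (independent_unit E)
    refine ⟨?_, ?_, ?_⟩
    · exact (h4 _ fun _ => num_four h1 hε hε').1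
    · intro δ hδ hδ'
      exact h3 _ _ fun _ => num_three h1 hδ hδ' hε
    · intro J _ _
      have hsep : Separated (fun _ : Unit => Φ) := by
        refine (h4 2 fun _ => ?_).2.2.2 le_rfl
        norm_num
        omega
      by_contra hcon
      push Not at hcon
      have h5 := converse (fun _ : J => ()) (fun _ => ⟨Classical.arbitrary J, rfl⟩) h2 hsep _ hcon
      have h6 := two_pow_le (E := fun _ : Unit => E) h2 (N := g) (by
        rw [Finset.sum_const, Finset.card_univ, Fintype.card_unit, one_smul, hE])
        (log_add_two_le (by omega)) h5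
      have h7 := ncard_conjugates_le (F := E) (fun _ : Unit => Φ)
      rw [hE] at h7
      have h8 := Nat.lt_pow_succ_log_self (b := 2) (by norm_num) g
      rw [pow_succ] at h6
      omega
  · intro p _ h3 E _ _ _ _ ζ hζ
    exact paley_cyclotomic h3 hζ
  · intro E _ _
    exact independent_unit E

end Pool.Agent.K6.H54.Aside.PaleyTypes
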